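import Mathlib

/-!
# Remez at one scale

A real polynomial `f` of total degree at most `K` in `n + 1` variables.  The unit cube is divided
in `M ^ (n + 1)` cubes.  If the cubes which contain a point with `|f| ≤ t` are more than
`cst n K * M ^ n`, then `|f| ≤ ((K + 1) * M ^ K) ^ (n + 1) * t` on the whole unit cube.

The proof is elementary: Lagrange interpolation on the lines of the grid, a quantitative form of
the lemma of Schwartz and Zippel on the grid, and induction on the degree: on a cube on which no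
nonzero derivative of `f` vanishes, `f` is monotone in every variable, and every value of `f` on
the cube is taken on its edges.
-/

set_option autoImplicit false

namespace Pool.RM

open Finset

/-! ### One variable -/

/-- Lagrange interpolation in one variable, on separated nodes. -/
theorem lag {K M : ℕ} (hM : 0 < M) (p : Polynomial ℝ) (hp : p.natDegree ≤ K)
    (z : Fin (K + 1) → ℝ) (hz : ∀ i, 0 ≤ z i ∧ z i ≤ 1)
    (hs : ∀ i j, i ≠ j → 1 / (M : ℝ) ≤ |z i - z j|) {t : ℝ} (ht : ∀ i, |p.eval (z i)| ≤ t)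
    {s : ℝ} (h0 : 0 ≤ s) (h1 : s ≤ 1) :
    |p.eval s| ≤ ((K + 1 : ℕ) : ℝ) * (M : ℝ) ^ K * t := by
  classical
  have hMr : (0 : ℝ) < M := by exact_mod_cast hM
  have hinj : Function.Injective z := by
    intro i j hij
    by_contra hne
    have := hs i j hne
    rw [hij, sub_self, abs_zero] at this
    have : (0 : ℝ) < 1 / (M : ℝ) := by positivity
    linarith
  have hdeg : p.degree < (Finset.univ : Finset (Fin (K + 1))).card := by
    refine (Polynomial.degree_le_of_natDegree_le hp).trans_lt ?_
    simp only [Finset.card_univ, Fintype.card_fin]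
    exact_mod_cast Nat.lt_succ_self _
  have h1' := Lagrange.eq_interpolate (s := Finset.univ) (v := z) hinj.injOn hdeg
  have h2 : p.eval s = ∑ i, p.eval (z i) *
      ∏ j ∈ Finset.univ.erase i, ((s - z j) / (z i - z j)) := by
    conv_lhs => rw [h1']
    rw [Lagrange.interpolate_apply, Polynomial.eval_finsetSum]
    refine Finset.sum_congr rfl fun i _ => ?_
    rw [Polynomial.eval_mul, Polynomial.eval_C, Lagrange.basis, Polynomial.eval_prod]
    congr 1
    refine Finset.prod_congr rfl fun j _ => ?_
    rw [Lagrange.basisDivisor]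
    simp only [Polynomial.eval_mul, Polynomial.eval_C, Polynomial.eval_sub, Polynomial.eval_X]
    rw [div_eq_inv_mul]
  have ht0 : 0 ≤ t := (abs_nonneg _).trans (ht 0)
  rw [h2]
  refine (Finset.abs_sum_le_sum_abs _ _).trans ?_
  have h3 : ∀ i ∈ (Finset.univ : Finset (Fin (K + 1))),
      |p.eval (z i) * ∏ j ∈ Finset.univ.erase i, ((s - z j) / (z i - z j))|
        ≤ t * (M : ℝ) ^ K := by
    intro i _
    rw [abs_mul, Finset.abs_prod]
    refine mul_le_mul (ht i) ?_ (Finset.prod_nonneg fun _ _ => abs_nonneg _) ht0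
    calc ∏ j ∈ Finset.univ.erase i, |(s - z j) / (z i - z j)|
        ≤ ∏ j ∈ Finset.univ.erase i, (M : ℝ) := by
          refine Finset.prod_le_prod (fun _ _ => abs_nonneg _) (fun j hj => ?_)
          have hne : i ≠ j := (Finset.ne_of_mem_erase hj).symm
          have h4 := hs i j hne
          rw [abs_div]
          have h5 : (0 : ℝ) < 1 / (M : ℝ) := by positivity
          have h6 : |s - z j| ≤ 1 := by
            rw [abs_le]
            constructor <;> linarith [(hz j).1, (hz j).2]
          calc |s - z j| / |z i - z j| ≤ 1 / (1 / (M : ℝ)) :=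
                div_le_div₀ zero_le_one h6 h5 h4
            _ = M := by field_simp
      _ = (M : ℝ) ^ K := by
          rw [Finset.prod_const, Finset.card_erase_of_mem (Finset.mem_univ _)]
          simp
  refine (Finset.sum_le_sum h3).trans (le_of_eq ?_)
  rw [Finset.sum_const, Finset.card_univ, Fintype.card_fin, nsmul_eq_mul]
  ring

/-- In one variable: a polynomial which is small at points of more than `2 K` of the `M` intervals
is small everywhere. -/
theorem line_count {K M : ℕ} (hM : 0 < M) (p : Polynomial ℝ) (hp : p.natDegree ≤ K) {t : ℝ}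
    (S : Finset (Fin M))
    (hS : ∀ k ∈ S, ∃ s : ℝ, (k : ℝ) / M ≤ s ∧ s ≤ ((k : ℝ) + 1) / M ∧ |p.eval s| ≤ t)
    (hc : 2 * K < S.card) {s : ℝ} (h0 : 0 ≤ s) (h1 : s ≤ 1) :
    |p.eval s| ≤ ((K + 1 : ℕ) : ℝ) * (M : ℝ) ^ K * t := by
  classical
  have hMr : (0 : ℝ) < M := by exact_mod_cast hM
  obtain ⟨S', hS', hcard⟩ := Finset.exists_subset_card_eq (Nat.succ_le_of_lt hc)
  set e := S'.orderEmbOfFin hcard with he
  have hmem : ∀ j, e j ∈ S := fun j => hS' (S'.orderEmbOfFin_mem hcard j)
  choose! w hw1 hw2 hw3 using hS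
  have idx : ∀ i : Fin (K + 1), 2 * (i : ℕ) < 2 * K + 1 := fun i => by
    have := i.2; omega
  set z : Fin (K + 1) → ℝ := fun i => w (e ⟨2 * (i : ℕ), idx i⟩) with hz
  have hmono : ∀ a b : Fin (2 * K + 1), a < b → ((e a : Fin M) : ℕ) < ((e b : Fin M) : ℕ) := by
    intro a b hab
    have := e.strictMono hab
    exact this
  have hsep : ∀ i j : Fin (K + 1), i < j → 1 / (M : ℝ) ≤ z j - z i := by
    intro i j hij
    have hij' : (i : ℕ) < j := hij
    have a1 := hmono ⟨2 * (i : ℕ), idx i⟩ ⟨2 * (i : ℕ) + 1, by have := j.2; omega⟩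
      (by simp [Fin.lt_def])
    have a2 := hmono ⟨2 * (i : ℕ) + 1, by have := j.2; omega⟩ ⟨2 * (j : ℕ), idx j⟩
      (by simp only [Fin.lt_def]; omega)
    have a3 : ((e ⟨2 * (i : ℕ), idx i⟩ : Fin M) : ℕ) + 2 ≤
        ((e ⟨2 * (j : ℕ), idx j⟩ : Fin M) : ℕ) := by omega
    have a4 : (((e ⟨2 * (i : ℕ), idx i⟩ : Fin M) : ℕ) : ℝ) + 2 ≤
        (((e ⟨2 * (j : ℕ), idx j⟩ : Fin M) : ℕ) : ℝ) := by exact_mod_cast a3
    have b1 := hw2 _ (hmem ⟨2 * (i : ℕ), idx i⟩)
    have b2 := hw1 _ (hmem ⟨2 * (j : ℕ), idx j⟩)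
    show 1 / (M : ℝ) ≤ w (e ⟨2 * (j : ℕ), idx j⟩) - w (e ⟨2 * (i : ℕ), idx i⟩)
    have b3 : 1 / (M : ℝ) ≤ (((e ⟨2 * (j : ℕ), idx j⟩ : Fin M) : ℕ) : ℝ) / M -
        ((((e ⟨2 * (i : ℕ), idx i⟩ : Fin M) : ℕ) : ℝ) + 1) / M := by
      rw [← sub_div]
      exact div_le_div_of_nonneg_right (by linarith) hMr.le
    linarith
  refine lag hM p hp z (fun i => ⟨?_, ?_⟩) (fun i j hij => ?_) (fun i => hw3 _ (hmem _)) h0 h1
  · refine le_trans ?_ (hw1 _ (hmem _))
    positivity
  · refine (hw2 _ (hmem _)).trans ?_
    rw [div_le_one hMr]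
    have := (e ⟨2 * (i : ℕ), idx i⟩).2
    exact_mod_cast this
  · rcases lt_or_gt_of_ne hij with h | h
    · have := hsep i j h
      rw [abs_sub_comm]
      exact this.trans (le_abs_self _)
    · have := hsep j i h
      exact this.trans (le_abs_self _)

/-! ### The grid -/

/-- `g` is a polynomial of degree at most `K` in each variable separately -/
def Sep {n : ℕ} (K : ℕ) (g : (Fin n → ℝ) → ℝ) : Prop :=
  ∀ (x : Fin n → ℝ) (i : Fin n), ∃ p : Polynomial ℝ, p.natDegree ≤ K ∧
    ∀ s : ℝ, g (Function.update x i s) = p.eval s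

theorem Sep.insertNth {n K : ℕ} {g : (Fin (n + 1) → ℝ) → ℝ} (hg : Sep K g) (i : Fin (n + 1))
    (s : ℝ) : Sep K (fun x' : Fin n → ℝ => g (i.insertNth s x')) := by
  intro x j
  obtain ⟨p, hp, h⟩ := hg (i.insertNth s x) (i.succAbove j)
  refine ⟨p, hp, fun u => ?_⟩
  rw [← h u]
  show g (i.insertNth s (Function.update x j u)) = _
  rw [Fin.insertNth_update]

theorem Sep.line {n K : ℕ} {g : (Fin (n + 1) → ℝ) → ℝ} (hg : Sep K g) (i : Fin (n + 1))
    (x' : Fin n → ℝ) : ∃ p : Polynomial ℝ, p.natDegree ≤ K ∧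
      ∀ s : ℝ, g (i.insertNth s x') = p.eval s := by
  obtain ⟨p, hp, h⟩ := hg (i.insertNth 0 x') i
  refine ⟨p, hp, fun s => ?_⟩
  rw [← h s]
  congr 1
  rw [Fin.update_insertNth]

/-- **Schwartz and Zippel on the grid, quantitative.** -/
theorem szq (K : ℕ) {M : ℕ} (hM : 0 < M) : ∀ (n : ℕ) (g : (Fin n → ℝ) → ℝ), Sep K g →
    ∀ (t : ℝ) (S : Finset (Fin n → Fin (M + 1))),
    (∀ u ∈ S, |g (fun j => ((u j : ℕ) : ℝ) / M)| ≤ t) →
    n * K * (M + 1) ^ (n - 1) < S.card →
    ∀ x : Fin n → ℝ, (∀ j, 0 ≤ x j ∧ x j ≤ 1) →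
      |g x| ≤ (((K + 1 : ℕ) : ℝ) * (M : ℝ) ^ K) ^ n * t := by
  classical
  have hMr : (0 : ℝ) < M := by exact_mod_cast hM
  intro n
  induction n with
  | zero =>
    intro g _ t S hS hc x _
    have : 0 < S.card := by omega
    obtain ⟨u, hu⟩ := Finset.card_pos.mp this
    have := hS u hu
    rw [pow_zero, one_mul]
    have e : x = (fun j => ((u j : ℕ) : ℝ) / M) := Subsingleton.elim _ _
    rw [e]
    exact this
  | succ n ih =>
    intro g hg t S hS hc x hx
    -- the fibres
    set F : Fin (M + 1) → Finset (Fin n → Fin (M + 1)) := fun a =>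
      Finset.univ.filter (fun u => (Fin.cons a u : Fin (n + 1) → Fin (M + 1)) ∈ S) with hF
    have hcard : S.card = ∑ a, (F a).card := by
      rw [Finset.card_eq_sum_card_fiberwise (f := fun u => u 0) (t := Finset.univ)
        (fun _ _ => Finset.mem_univ _)]
      refine Finset.sum_congr rfl (fun a _ => ?_)
      refine Finset.card_bij' (fun u _ => Fin.tail u) (fun u _ => Fin.cons a u) ?_ ?_ ?_ ?_
      · intro u hu
        rw [Finset.mem_filter] at hu
        rw [hF, Finset.mem_filter]
        refine ⟨Finset.mem_univ _, ?_⟩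
        rw [← hu.2, Fin.cons_self_tail]
        exact hu.1
      · intro u hu
        rw [hF, Finset.mem_filter] at hu
        rw [Finset.mem_filter]
        exact ⟨hu.2, by simp⟩
      · intro u hu
        rw [Finset.mem_filter] at hu
        rw [← hu.2, Fin.cons_self_tail]
      · intro u hu
        simp
    -- heavy slices
    set H : Finset (Fin (M + 1)) :=
      Finset.univ.filter (fun a => n * K * (M + 1) ^ (n - 1) < (F a).card) with hH
    have hFle : ∀ a, (F a).card ≤ (M + 1) ^ n := by
      intro a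
      refine (Finset.card_le_univ _).trans (le_of_eq ?_)
      simp
    have hHc : K < H.card := by
      by_contra hcon
      push Not at hcon
      have h1 : ∑ a, (F a).card ≤ ∑ a ∈ H, (M + 1) ^ n +
          ∑ a ∈ Finset.univ \ H, n * K * (M + 1) ^ (n - 1) := by
        rw [← Finset.sum_sdiff (Finset.subset_univ H), add_comm]
        refine Nat.add_le_add (Finset.sum_le_sum fun a _ => hFle a)
          (Finset.sum_le_sum fun a ha => ?_)
        rw [Finset.mem_sdiff, hH, Finset.mem_filter] at ha
        by_contra hc'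
        push Not at hc'
        exact ha.2 ⟨Finset.mem_univ _, hc'⟩
      rw [Finset.sum_const, Finset.sum_const, smul_eq_mul, smul_eq_mul] at h1
      have h2 : (Finset.univ \ H).card ≤ M + 1 :=
        (Finset.card_le_univ _).trans (le_of_eq (by simp))
      have h3 : (M + 1) * (n * K * (M + 1) ^ (n - 1)) ≤ n * K * (M + 1) ^ n := by
        rcases Nat.eq_zero_or_pos n with h0 | h0
        · subst h0; simp
        · obtain ⟨m, rfl⟩ := Nat.exists_eq_succ_of_ne_zero h0.ne'
          simp only [Nat.succ_eq_add_one, Nat.add_sub_cancel]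
          rw [pow_succ]
          exact le_of_eq (by ring)
      have h4 : H.card * (M + 1) ^ n ≤ K * (M + 1) ^ n := Nat.mul_le_mul_right _ hcon
      have h5 : (Finset.univ \ H).card * (n * K * (M + 1) ^ (n - 1)) ≤
          (M + 1) * (n * K * (M + 1) ^ (n - 1)) := Nat.mul_le_mul_right _ h2
      have h6 : (n + 1) * K * (M + 1) ^ n = K * (M + 1) ^ n + n * K * (M + 1) ^ n := by ring
      rw [hcard] at hc
      simp only [Nat.add_sub_cancel] at hc
      omega
    -- `K + 1` heavy slices
    obtain ⟨H', hH', hcard'⟩ := Finset.exists_subset_card_eq (Nat.succ_le_of_lt hHc)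
    set e := H'.orderEmbOfFin hcard' with he
    have hmem : ∀ j, e j ∈ H := fun j => hH' (H'.orderEmbOfFin_mem hcard' j)
    obtain ⟨p, hp, hpe⟩ := hg.line 0 (fun j => x j.succ)
    have hslice : ∀ i : Fin (K + 1),
        |p.eval ((((e i : Fin (M + 1)) : ℕ) : ℝ) / M)| ≤
          (((K + 1 : ℕ) : ℝ) * (M : ℝ) ^ K) ^ n * t := by
      intro i
      have h1 := hmem i
      rw [hH, Finset.mem_filter] at h1
      have h2 := ih (fun x' => g ((0 : Fin (n + 1)).insertNth
        ((((e i : Fin (M + 1)) : ℕ) : ℝ) / M) x')) (hg.insertNth 0 _) t (F (e i)) ?_ h1.2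
        (fun j => x j.succ) (fun j => hx _)
      · rw [← hpe]
        exact h2
      · intro u hu
        rw [hF, Finset.mem_filter] at hu
        have := hS _ hu.2
        refine le_of_eq_of_le ?_ this
        congr 2
        ext j
        refine Fin.cases ?_ (fun j => ?_) j
        · simp
        · simp
    have := lag hM p hp (fun i => (((e i : Fin (M + 1)) : ℕ) : ℝ) / M) (fun i => ⟨?_, ?_⟩)
      (fun i j hij => ?_) hslice (hx 0).1 (hx 0).2
    · rw [← hpe] at this
      have e1 : (0 : Fin (n + 1)).insertNth (x 0) (fun j => x j.succ) = x := by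
        ext j
        refine Fin.cases ?_ (fun j => ?_) j
        · simp
        · simp
      rw [e1] at this
      refine this.trans (le_of_eq ?_)
      rw [pow_succ]
      ring
    · positivity
    · rw [div_le_one hMr]
      have := (e i).2
      exact_mod_cast Nat.lt_succ_iff.mp this
    · have hne : ((e i : Fin (M + 1)) : ℕ) ≠ ((e j : Fin (M + 1)) : ℕ) := by
        intro h
        exact hij (e.injective (Fin.ext h))
      rw [← sub_div, abs_div, abs_of_pos hMr]
      refine div_le_div_of_nonneg_right ?_ hMr.le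
      have h1 : (((e i : Fin (M + 1)) : ℕ) : ℤ) - (((e j : Fin (M + 1)) : ℕ) : ℤ) ≠ 0 := by
        intro h
        exact hne (by exact_mod_cast sub_eq_zero.mp h)
      have h2 := Int.one_le_abs h1
      exact_mod_cast h2

/-! ### Polynomials in several variables -/

open MvPolynomial (pderiv totalDegree eval)

theorem hasDerivAt_update {n : ℕ} (f : MvPolynomial (Fin n) ℝ) (x : Fin n → ℝ) (i : Fin n)
    (s : ℝ) : HasDerivAt (fun s => eval (Function.update x i s) f)
      (eval (Function.update x i s) (pderiv i f)) s := by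
  induction f using MvPolynomial.induction_on with
  | C a => simpa using hasDerivAt_const s a
  | add p q hp hq =>
    have := hp.fun_add hq
    simpa only [map_add] using this
  | mul_X p j hp =>
    have h1 : HasDerivAt (fun s => Function.update x i s j) (if j = i then 1 else 0) s := by
      by_cases hj : j = i
      · subst hj
        simp only [Function.update_self, if_true]
        exact hasDerivAt_id' s
      · simp only [Function.update_of_ne hj, if_neg hj]
        exact hasDerivAt_const s (x j)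
    have := hp.fun_mul h1
    simp only [map_mul, MvPolynomial.eval_X]
    refine this.congr_deriv ?_
    rw [MvPolynomial.pderiv_mul, map_add, map_mul, map_mul, MvPolynomial.eval_X]
    congr 1
    by_cases hj : j = i
    · subst hj
      simp
    · rw [MvPolynomial.pderiv_X_of_ne hj]
      simp [hj]

theorem continuous_eval {n : ℕ} (f : MvPolynomial (Fin n) ℝ) :
    Continuous (fun x : Fin n → ℝ => eval x f) := MvPolynomial.continuous_eval f

theorem totalDegree_pderiv_le {n K : ℕ} (f : MvPolynomial (Fin n) ℝ) (i : Fin n)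
    (hf : f.totalDegree ≤ K + 1) : (pderiv i f).totalDegree ≤ K := by
  classical
  rw [f.as_sum, map_sum]
  refine (MvPolynomial.totalDegree_finsetSum_le (fun k hk => ?_))
  rw [MvPolynomial.pderiv_monomial]
  by_cases h0 : k i = 0
  · simp [h0]
  · refine (MvPolynomial.totalDegree_monomial_le _ _).trans ?_
    show ((k - Finsupp.single i 1).sum fun _ e => e) ≤ K
    have h1 := (MvPolynomial.le_totalDegree hk).trans hf
    have h2 : (k - Finsupp.single i 1) + Finsupp.single i 1 = k :=
      tsub_add_cancel_of_le (Finsupp.single_le_iff.mpr (Nat.one_le_iff_ne_zero.mpr h0))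
    have h3 : (k.sum fun _ e => e) = ((k - Finsupp.single i 1).sum fun _ e => e) + 1 := by
      conv_lhs => rw [← h2]
      rw [Finsupp.sum_add_index' (fun _ => rfl) (fun _ _ _ => rfl), Finsupp.sum_single_index rfl]
    omega

theorem pderiv_eq_zero {n : ℕ} (f : MvPolynomial (Fin n) ℝ) (i : Fin n)
    (hf : f.totalDegree ≤ 0) : pderiv i f = 0 := by
  rw [Nat.le_zero, MvPolynomial.totalDegree_eq_zero_iff_eq_C] at hf
  rw [hf, MvPolynomial.pderiv_C]

theorem sep_eval {n K : ℕ} (f : MvPolynomial (Fin n) ℝ) (hf : f.totalDegree ≤ K) :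
    Sep K (fun x : Fin n → ℝ => eval x f) := by
  classical
  intro x i
  refine ⟨MvPolynomial.aeval (fun j => if j = i then (Polynomial.X : Polynomial ℝ)
    else Polynomial.C (x j)) f, ?_, fun s => ?_⟩
  · rw [MvPolynomial.aeval_def, MvPolynomial.eval₂_eq']
    refine Polynomial.natDegree_sum_le_of_forall_le _ _ (fun k hk => ?_)
    refine (Polynomial.natDegree_C_mul_le _ _).trans ?_
    refine (Polynomial.natDegree_prod_le _ _).trans ?_
    have h1 : ∑ j, ((if j = i then (Polynomial.X : Polynomial ℝ) else Polynomial.C (x j))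
        ^ k j).natDegree ≤ ∑ j, k j := by
      refine Finset.sum_le_sum (fun j _ => ?_)
      refine (Polynomial.natDegree_pow_le).trans ?_
      by_cases hj : j = i
      · simp [hj]
      · simp [hj]
    refine h1.trans ((le_of_eq ?_).trans ((MvPolynomial.le_totalDegree hk).trans hf))
    rw [Finsupp.sum_fintype _ _ (fun _ => rfl)]
  · show eval (Function.update x i s) f = _
    rw [← Polynomial.coe_evalRingHom, MvPolynomial.aeval_def, MvPolynomial.hom_eval₂,
      MvPolynomial.eval, MvPolynomial.coe_eval₂Hom]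
    congr 1
    · ext a
      simp
    · ext j
      by_cases hj : j = i
      · subst hj; simp
      · simp [hj]

/-- The closed cube number `q`. -/
def InC {n : ℕ} (M : ℕ) (q : Fin n → Fin M) (x : Fin n → ℝ) : Prop :=
  ∀ j, ((q j : ℕ) : ℝ) / M ≤ x j ∧ x j ≤ (((q j : ℕ) : ℝ) + 1) / M

theorem InC.update {n M : ℕ} {q : Fin n → Fin M} {x : Fin n → ℝ} (hx : InC M q x) (i : Fin n)
    {s : ℝ} (h0 : ((q i : ℕ) : ℝ) / M ≤ s) (h1 : s ≤ (((q i : ℕ) : ℝ) + 1) / M) :
    InC M q (Function.update x i s) := by
  intro j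
  by_cases hj : j = i
  · subst hj
    simp only [Function.update_self]
    exact ⟨h0, h1⟩
  · simp only [Function.update_of_ne hj]
    exact hx j

/-- The vertices of the cube. -/
noncomputable def vert {n : ℕ} (M : ℕ) (q : Fin n → Fin M) (ε : Fin n → Bool) (j : Fin n) : ℝ :=
  (((q j : ℕ) : ℝ) + if ε j then 1 else 0) / M

/-- **The edges see every value**: if `f` is monotone in every variable on the cube, every value
of `f` on the cube is taken on an edge. -/
theorem edge {n M : ℕ} (hM : 0 < M) (f : MvPolynomial (Fin (n + 1)) ℝ)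
    (q : Fin (n + 1) → Fin M)
    (hmon : ∀ i, (∀ x, InC M q x → 0 ≤ eval x (pderiv i f)) ∨
      (∀ x, InC M q x → eval x (pderiv i f) ≤ 0)) (v : Fin (n + 1) → ℝ) (hv : InC M q v) :
    ∃ (i : Fin (n + 1)) (ε : Fin (n + 1) → Bool) (s : ℝ), ((q i : ℕ) : ℝ) / M ≤ s ∧
      s ≤ (((q i : ℕ) : ℝ) + 1) / M ∧ eval (Function.update (vert M q ε) i s) f = eval v f := by
  classical
  have hMr : (0 : ℝ) < M := by exact_mod_cast hM
  -- the directions
  choose! ε hε using fun i => (show ∃ b : Bool,
    (b = true → ∀ x, InC M q x → eval x (pderiv i f) ≤ 0) ∧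
    (b = false → ∀ x, InC M q x → 0 ≤ eval x (pderiv i f)) by
      rcases hmon i with h | h
      · exact ⟨false, by simp, fun _ => h⟩
      · exact ⟨true, fun _ => h, by simp⟩)
  set lo := vert M q ε with hlo
  set hi := vert M q (fun j => !ε j) with hhi
  have hvert : ∀ (δ : Fin (n + 1) → Bool) (j : Fin (n + 1)),
      ((q j : ℕ) : ℝ) / M ≤ vert M q δ j ∧ vert M q δ j ≤ (((q j : ℕ) : ℝ) + 1) / M := by
    intro δ j
    unfold vert
    constructor
    · refine div_le_div_of_nonneg_right ?_ hMr.le
      split_ifs <;> linarith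
    · refine div_le_div_of_nonneg_right ?_ hMr.le
      split_ifs <;> linarith
  -- monotone
  have hup : ∀ (w : Fin (n + 1) → ℝ), InC M q w → ∀ i a b, ((q i : ℕ) : ℝ) / M ≤ a → a ≤ b →
      b ≤ (((q i : ℕ) : ℝ) + 1) / M → ε i = false →
      eval (Function.update w i a) f ≤ eval (Function.update w i b) f := by
    intro w hw i a b ha hab hb he
    have hmono : MonotoneOn (fun s => eval (Function.update w i s) f) (Set.Icc a b) := by
      refine monotoneOn_of_deriv_nonneg (convex_Icc a b) ?_ ?_ ?_
      · exact fun s _ => (hasDerivAt_update f w i s).continuousAt.continuousWithinAt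
      · exact fun s _ => (hasDerivAt_update f w i s).differentiableAt.differentiableWithinAt
      · intro s hs
        rw [interior_Icc] at hs
        rw [(hasDerivAt_update f w i s).deriv]
        exact (hε i).2 he _ (hw.update i (ha.trans hs.1.le) (hs.2.le.trans hb))
    exact hmono ⟨le_rfl, hab⟩ ⟨hab, le_rfl⟩ hab
  have hdn : ∀ (w : Fin (n + 1) → ℝ), InC M q w → ∀ i a b, ((q i : ℕ) : ℝ) / M ≤ a → a ≤ b →
      b ≤ (((q i : ℕ) : ℝ) + 1) / M → ε i = true →
      eval (Function.update w i b) f ≤ eval (Function.update w i a) f := by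
    intro w hw i a b ha hab hb he
    have hmono : AntitoneOn (fun s => eval (Function.update w i s) f) (Set.Icc a b) := by
      refine antitoneOn_of_deriv_nonpos (convex_Icc a b) ?_ ?_ ?_
      · exact fun s _ => (hasDerivAt_update f w i s).continuousAt.continuousWithinAt
      · exact fun s _ => (hasDerivAt_update f w i s).differentiableAt.differentiableWithinAt
      · intro s hs
        rw [interior_Icc] at hs
        rw [(hasDerivAt_update f w i s).deriv]
        exact (hε i).1 he _ (hw.update i (ha.trans hs.1.le) (hs.2.le.trans hb))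
    exact hmono ⟨le_rfl, hab⟩ ⟨hab, le_rfl⟩ hab
  -- one step towards the lowest vertex
  have hstep : ∀ (w : Fin (n + 1) → ℝ), InC M q w → ∀ i,
      eval (Function.update w i (lo i)) f ≤ eval w f ∧
      eval w f ≤ eval (Function.update w i (hi i)) f := by
    intro w hw i
    have e : Function.update w i (w i) = w := Function.update_eq_self i w
    have hw' := hw i
    rcases Bool.eq_false_or_eq_true (ε i) with he | he
    · have l : lo i = (((q i : ℕ) : ℝ) + 1) / M := by simp [hlo, vert, he]
      have h : hi i = ((q i : ℕ) : ℝ) / M := by simp [hhi, vert, he]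
      rw [l, h]
      constructor
      · have := hdn w hw i (w i) _ hw'.1 hw'.2 le_rfl he
        rwa [e] at this
      · have := hdn w hw i _ (w i) le_rfl hw'.1 hw'.2 he
        rwa [e] at this
    · have l : hi i = (((q i : ℕ) : ℝ) + 1) / M := by simp [hhi, vert, he]
      have h : lo i = ((q i : ℕ) : ℝ) / M := by simp [hlo, vert, he]
      rw [l, h]
      constructor
      · have := hup w hw i _ (w i) le_rfl hw'.1 hw'.2 he
        rwa [e] at this
      · have := hup w hw i (w i) _ hw'.1 hw'.2 le_rfl he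
        rwa [e] at this
  have hpw : ∀ (S : Finset (Fin (n + 1))) (a b : Fin (n + 1) → ℝ), InC M q a → InC M q b →
      InC M q (S.piecewise a b) := by
    intro S a b ha hb j
    by_cases hj : j ∈ S
    · rw [Finset.piecewise_eq_of_mem _ _ _ hj]; exact ha j
    · rw [Finset.piecewise_eq_of_notMem _ _ _ hj]; exact hb j
  have hloC : InC M q lo := hvert _
  have hhiC : InC M q hi := hvert _
  have hL : ∀ S : Finset (Fin (n + 1)), eval (S.piecewise lo v) f ≤ eval v f := by
    intro S
    induction S using Finset.induction_on with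
    | empty => simp
    | insert i S _ ih =>
      rw [Finset.piecewise_insert]
      exact ((hstep _ (hpw S lo v hloC hv) i).1).trans ih
  have hH : ∀ S : Finset (Fin (n + 1)), eval v f ≤ eval (S.piecewise hi v) f := by
    intro S
    induction S using Finset.induction_on with
    | empty => simp
    | insert i S _ ih =>
      rw [Finset.piecewise_insert]
      exact ih.trans ((hstep _ (hpw S hi v hhiC hv) i).2)
  have hlow : eval lo f ≤ eval v f := by
    have := hL Finset.univ
    rwa [Finset.piecewise_univ] at this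
  have hhigh : eval v f ≤ eval hi f := by
    have := hH Finset.univ
    rwa [Finset.piecewise_univ] at this
  -- the path of edges
  have hpath : ∀ S : Finset (Fin (n + 1)), eval v f ≤ eval (S.piecewise hi lo) f →
      ∃ (i : Fin (n + 1)) (T : Finset (Fin (n + 1))) (s : ℝ), ((q i : ℕ) : ℝ) / M ≤ s ∧
        s ≤ (((q i : ℕ) : ℝ) + 1) / M ∧
        eval (Function.update (T.piecewise hi lo) i s) f = eval v f := by
    intro S
    induction S using Finset.induction_on with
    | empty =>
      intro h
      rw [Finset.piecewise_empty] at h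
      refine ⟨0, ∅, lo 0, (hloC 0).1, (hloC 0).2, ?_⟩
      rw [Finset.piecewise_empty, Function.update_eq_self]
      exact le_antisymm hlow h
    | insert i S hi' ih =>
      intro h
      by_cases h1 : eval v f ≤ eval (S.piecewise hi lo) f
      · exact ih h1
      · push Not at h1
        rw [Finset.piecewise_insert] at h
        set w := S.piecewise hi lo with hw
        have hwC : InC M q w := hpw S hi lo hhiC hloC
        have hwi : w i = lo i := by rw [hw, Finset.piecewise_eq_of_notMem _ _ _ hi']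
        have hcont : ContinuousOn (fun s => eval (Function.update w i s) f)
            (Set.uIcc (lo i) (hi i)) :=
          fun s _ => (hasDerivAt_update f w i s).continuousAt.continuousWithinAt
        have hiv := intermediate_value_uIcc hcont
        have hmem : eval v f ∈ Set.uIcc (eval (Function.update w i (lo i)) f)
            (eval (Function.update w i (hi i)) f) := by
          rw [Set.mem_uIcc]
          left
          refine ⟨?_, h⟩
          rw [← hwi, Function.update_eq_self]
          exact h1.le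
        obtain ⟨s, hs, hs'⟩ := hiv hmem
        rw [Set.mem_uIcc] at hs
        refine ⟨i, S, s, ?_, ?_, hs'⟩
        · rcases hs with hs | hs
          · exact (hloC i).1.trans hs.1
          · exact (hhiC i).1.trans hs.1
        · rcases hs with hs | hs
          · exact hs.2.trans (hhiC i).2
          · exact hs.2.trans (hloC i).2
  obtain ⟨i, T, s, h1, h2, h3⟩ := hpath Finset.univ (by rwa [Finset.piecewise_univ])
  refine ⟨i, T.piecewise (fun j => !ε j) ε, s, h1, h2, ?_⟩
  rw [← h3]
  have e : vert M q (T.piecewise (fun j => !ε j) ε) = T.piecewise hi lo := by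
    ext j
    by_cases hj : j ∈ T
    · rw [Finset.piecewise_eq_of_mem _ _ _ hj]
      simp [hhi, vert, Finset.piecewise_eq_of_mem _ _ _ hj]
    · rw [Finset.piecewise_eq_of_notMem _ _ _ hj]
      simp [hlo, vert, Finset.piecewise_eq_of_notMem _ _ _ hj]
  rw [e]

/-! ### Counting -/

open Classical in
/-- The lines of the grid in the direction `i`: the pairs (interval, line) with a point where
`|g| ≤ t`. -/
noncomputable def lins {n : ℕ} (M : ℕ) (g : (Fin (n + 1) → ℝ) → ℝ) (t : ℝ) (i : Fin (n + 1)) :
    Finset (Fin M × (Fin n → Fin (M + 1))) :=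
  Finset.univ.filter (fun p => ∃ s : ℝ, ((p.1 : ℕ) : ℝ) / M ≤ s ∧ s ≤ (((p.1 : ℕ) : ℝ) + 1) / M ∧
    |g (i.insertNth s (fun j => ((p.2 j : ℕ) : ℝ) / M))| ≤ t)

theorem lins_card {n K M : ℕ} (hM : 0 < M) (g : (Fin (n + 1) → ℝ) → ℝ) (hg : Sep K g) {t : ℝ}
    (i : Fin (n + 1)) (x₀ : Fin (n + 1) → ℝ) (hx₀ : ∀ j, 0 ≤ x₀ j ∧ x₀ j ≤ 1)
    (hbig : (((K + 1 : ℕ) : ℝ) * (M : ℝ) ^ K) ^ (n + 1) * t < |g x₀|) :
    (lins M g t i).card ≤ (M + 1) ^ n * (2 * K) + n * K * (M + 1) ^ (n - 1) * M := by
  classical
  -- the bad lines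
  set B : Finset (Fin n → Fin (M + 1)) := Finset.univ.filter (fun u =>
    ∀ s : ℝ, 0 ≤ s → s ≤ 1 → |g (i.insertNth s (fun j => ((u j : ℕ) : ℝ) / M))| ≤
      ((K + 1 : ℕ) : ℝ) * (M : ℝ) ^ K * t) with hB
  have hBc : B.card ≤ n * K * (M + 1) ^ (n - 1) := by
    by_contra hcon
    push Not at hcon
    have h := szq K hM n (fun x' => g (i.insertNth (x₀ i) x')) (hg.insertNth i _)
      (((K + 1 : ℕ) : ℝ) * (M : ℝ) ^ K * t) B (fun u hu => by
        rw [hB, Finset.mem_filter] at hu
        exact hu.2 _ (hx₀ i).1 (hx₀ i).2) hcon (i.removeNth x₀) (fun j => hx₀ _)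
    simp only [Fin.insertNth_self_removeNth] at h
    have e : (((K + 1 : ℕ) : ℝ) * (M : ℝ) ^ K) ^ n * (((K + 1 : ℕ) : ℝ) * (M : ℝ) ^ K * t) =
        (((K + 1 : ℕ) : ℝ) * (M : ℝ) ^ K) ^ (n + 1) * t := by rw [pow_succ]; ring
    rw [e] at h
    exact absurd hbig (not_lt.mpr h)
  have hfib : (lins M g t i).card = ∑ u : Fin n → Fin (M + 1),
      ((lins M g t i).filter (fun p => p.2 = u)).card :=
    Finset.card_eq_sum_card_fiberwise (fun _ _ => Finset.mem_univ _)
  rw [hfib, ← Finset.sum_sdiff (Finset.subset_univ B)]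
  refine Nat.add_le_add ?_ ?_
  · calc ∑ u ∈ Finset.univ \ B, ((lins M g t i).filter (fun p => p.2 = u)).card
        ≤ ∑ u ∈ Finset.univ \ B, 2 * K := by
          refine Finset.sum_le_sum (fun u hu => ?_)
          rw [Finset.mem_sdiff, hB, Finset.mem_filter] at hu
          by_contra hcon
          push Not at hcon
          apply hu.2
          refine ⟨Finset.mem_univ _, fun s h0 h1 => ?_⟩
          obtain ⟨p, hp, hpe⟩ := hg.line i (fun j => ((u j : ℕ) : ℝ) / M)
          rw [hpe]
          refine line_count hM p hp (((lins M g t i).filter (fun p => p.2 = u)).image Prod.fst)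
            (fun k hk => ?_) ?_ h0 h1
          · rw [Finset.mem_image] at hk
            obtain ⟨⟨k', u'⟩, hk', rfl⟩ := hk
            rw [Finset.mem_filter, lins, Finset.mem_filter] at hk'
            obtain ⟨⟨_, s', h1', h2', h3'⟩, he⟩ := hk'
            simp only at he
            subst he
            refine ⟨s', h1', h2', ?_⟩
            rw [← hpe]
            exact h3'
          · rw [Finset.card_image_of_injOn]
            · exact hcon
            · intro a ha b hb hab
              rw [Finset.mem_coe, Finset.mem_filter] at ha hb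
              exact Prod.ext hab (ha.2.trans hb.2.symm)
      _ ≤ (M + 1) ^ n * (2 * K) := by
          rw [Finset.sum_const, smul_eq_mul]
          refine Nat.mul_le_mul_right _ ((Finset.card_le_univ _).trans (le_of_eq ?_))
          simp
  · calc ∑ u ∈ B, ((lins M g t i).filter (fun p => p.2 = u)).card
        ≤ ∑ u ∈ B, M := by
          refine Finset.sum_le_sum (fun u _ => ?_)
          have h1 : ((lins M g t i).filter (fun p => p.2 = u)).card ≤
              (Finset.univ : Finset (Fin M)).card := by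
            refine Finset.card_le_card_of_injOn Prod.fst (fun _ _ => Finset.mem_coe.mpr
              (Finset.mem_univ _)) ?_
            intro a ha b hb hab
            rw [Finset.mem_coe, Finset.mem_filter] at ha hb
            exact Prod.ext hab (ha.2.trans hb.2.symm)
          rwa [Finset.card_univ, Fintype.card_fin] at h1
      _ ≤ n * K * (M + 1) ^ (n - 1) * M := by
          rw [Finset.sum_const, smul_eq_mul]
          exact Nat.mul_le_mul_right _ hBc

open Classical in
/-- The cubes which contain a point with `|f| ≤ t`. -/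
noncomputable def bad {n : ℕ} (M : ℕ) (f : MvPolynomial (Fin n) ℝ) (t : ℝ) :
    Finset (Fin n → Fin M) :=
  Finset.univ.filter (fun q => ∃ x, InC M q x ∧ |eval x f| ≤ t)

open Classical in
/-- The cubes with an edge which contains a point with `|f| ≤ t`. -/
noncomputable def bade {n : ℕ} (M : ℕ) (f : MvPolynomial (Fin (n + 1)) ℝ) (t : ℝ) :
    Finset (Fin (n + 1) → Fin M) :=
  Finset.univ.filter (fun q => ∃ (i : Fin (n + 1)) (ε : Fin (n + 1) → Bool) (s : ℝ),
    ((q i : ℕ) : ℝ) / M ≤ s ∧ s ≤ (((q i : ℕ) : ℝ) + 1) / M ∧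
    |eval (Function.update (vert M q ε) i s) f| ≤ t)

theorem bade_card {n K M : ℕ} (hM : 0 < M) (f : MvPolynomial (Fin (n + 1)) ℝ)
    (hf : f.totalDegree ≤ K) {t : ℝ} (x₀ : Fin (n + 1) → ℝ) (hx₀ : ∀ j, 0 ≤ x₀ j ∧ x₀ j ≤ 1)
    (hbig : (((K + 1 : ℕ) : ℝ) * (M : ℝ) ^ K) ^ (n + 1) * t < |eval x₀ f|) :
    (bade M f t).card ≤ (n + 1) * 2 ^ (n + 1) *
      ((M + 1) ^ n * (2 * K) + n * K * (M + 1) ^ (n - 1) * M) := by
  classical
  set E : Fin (n + 1) × (Fin (n + 1) → Bool) → Finset (Fin (n + 1) → Fin M) := fun a =>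
    Finset.univ.filter (fun q => ∃ s : ℝ, ((q a.1 : ℕ) : ℝ) / M ≤ s ∧
      s ≤ (((q a.1 : ℕ) : ℝ) + 1) / M ∧
      |eval (Function.update (vert M q a.2) a.1 s) f| ≤ t) with hE
  have hsub : bade M f t ⊆ Finset.univ.biUnion E := by
    intro q hq
    rw [bade, Finset.mem_filter] at hq
    obtain ⟨_, i, ε, s, h1, h2, h3⟩ := hq
    rw [Finset.mem_biUnion]
    refine ⟨(i, ε), Finset.mem_univ _, ?_⟩
    rw [hE, Finset.mem_filter]
    exact ⟨Finset.mem_univ _, s, h1, h2, h3⟩
  refine (Finset.card_le_card hsub).trans (Finset.card_biUnion_le.trans ?_)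
  have hone : ∀ a, (E a).card ≤ (M + 1) ^ n * (2 * K) + n * K * (M + 1) ^ (n - 1) * M := by
    rintro ⟨i, ε⟩
    refine le_trans ?_ (lins_card hM (fun x => eval x f) (sep_eval f hf) (t := t) i x₀ hx₀ hbig)
    refine Finset.card_le_card_of_injOn (fun q => (q i, fun j =>
      (⟨(q (i.succAbove j) : ℕ) + (if ε (i.succAbove j) then 1 else 0), by
        have := (q (i.succAbove j)).2
        split_ifs <;> omega⟩ : Fin (M + 1)))) ?_ ?_
    · intro q hq
      rw [Finset.mem_coe, hE, Finset.mem_filter] at hq
      obtain ⟨_, s, h1, h2, h3⟩ := hq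
      rw [Finset.mem_coe, lins, Finset.mem_filter]
      refine ⟨Finset.mem_univ _, s, h1, h2, ?_⟩
      refine le_of_eq_of_le ?_ h3
      have e : (i.insertNth s (fun j => ((((q (i.succAbove j) : ℕ) +
          (if ε (i.succAbove j) then 1 else 0) : ℕ)) : ℝ) / M) : Fin (n + 1) → ℝ) =
          Function.update (vert M q ε) i s := by
        ext j
        rcases Fin.eq_self_or_eq_succAbove i j with rfl | ⟨j', rfl⟩
        · simp
        · rw [Fin.insertNth_apply_succAbove, Function.update_of_ne (Fin.succAbove_ne i j')]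
          unfold vert
          push_cast
          rfl
      show |eval (i.insertNth s (fun j => ((((q (i.succAbove j) : ℕ) +
          (if ε (i.succAbove j) then 1 else 0) : ℕ)) : ℝ) / M)) f| = _
      rw [e]
    · intro q _ q' _ h
      rw [Prod.mk.injEq] at h
      ext j
      rcases Fin.eq_self_or_eq_succAbove i j with rfl | ⟨j', rfl⟩
      · exact congrArg Fin.val h.1
      · have h2 := congrArg Fin.val (congrFun h.2 j')
        simpa using h2
  refine (Finset.sum_le_sum (fun a _ => hone a)).trans (le_of_eq ?_)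
  rw [Finset.sum_const, smul_eq_mul, Finset.card_univ, Fintype.card_prod, Fintype.card_fin]
  simp

/-- The constants. -/
def cst (n : ℕ) : ℕ → ℕ
  | 0 => 0
  | K + 1 => (n + 1) * cst n K + (n + 1) * 2 ^ (n + 1) *
      (2 ^ n * (2 * (K + 1)) + n * (K + 1) * 2 ^ n)

/-- **Remez at one scale.** -/
theorem remez (n : ℕ) {M : ℕ} (hM : 0 < M) : ∀ (K : ℕ) (f : MvPolynomial (Fin (n + 1)) ℝ),
    f.totalDegree ≤ K → ∀ t : ℝ, cst n K * M ^ n < (bad M f t).card →
    ∀ x : Fin (n + 1) → ℝ, (∀ j, 0 ≤ x j ∧ x j ≤ 1) →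
      |eval x f| ≤ (((K + 1 : ℕ) : ℝ) * (M : ℝ) ^ K) ^ (n + 1) * t := by
  classical
  intro K
  induction K with
  | zero =>
    intro f hf t hc x _
    have h0 : 0 < (bad M f t).card := by
      simp only [cst] at hc
      omega
    obtain ⟨q, hq⟩ := Finset.card_pos.mp h0
    rw [bad, Finset.mem_filter] at hq
    obtain ⟨_, y, _, hy⟩ := hq
    rw [Nat.le_zero, MvPolynomial.totalDegree_eq_zero_iff_eq_C] at hf
    rw [hf, MvPolynomial.eval_C] at hy
    rw [hf, MvPolynomial.eval_C]
    simpa using hy
  | succ K ih =>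
    intro f hf t hc x₀ hx₀
    by_contra hbig
    push Not at hbig
    set D : Finset (Fin (n + 1)) := Finset.univ.filter (fun i => pderiv i f ≠ 0) with hD
    have hsub : bad M f t ⊆ (D.biUnion (fun i => bad M (pderiv i f) 0)) ∪ bade M f t := by
      intro q hq
      rw [Finset.mem_union, or_iff_not_imp_left]
      intro hno
      have hno' : ∀ i, pderiv i f ≠ 0 → ∀ x, InC M q x → eval x (pderiv i f) ≠ 0 := by
        intro i hi x hx h0
        apply hno
        rw [Finset.mem_biUnion]
        refine ⟨i, ?_, ?_⟩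
        · rw [hD, Finset.mem_filter]
          exact ⟨Finset.mem_univ _, hi⟩
        · rw [bad, Finset.mem_filter]
          exact ⟨Finset.mem_univ _, x, hx, by rw [h0, abs_zero]⟩
      have hmon : ∀ i, (∀ x, InC M q x → 0 ≤ eval x (pderiv i f)) ∨
          (∀ x, InC M q x → eval x (pderiv i f) ≤ 0) := by
        intro i
        by_cases hi : pderiv i f = 0
        · left
          intro x _
          rw [hi, map_zero]
        · by_contra hcon
          push Not at hcon
          obtain ⟨⟨a, ha, ha'⟩, ⟨b, hb, hb'⟩⟩ := hcon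
          have hpre : IsPreconnected {x : Fin (n + 1) → ℝ | InC M q x} := by
            refine Convex.isPreconnected ?_
            intro u hu v hv α β hα hβ hαβ j
            have hu' := hu j
            have hv' := hv j
            simp only [Pi.add_apply, Pi.smul_apply, smul_eq_mul]
            have key : ∀ c : ℝ, α * c + β * c = c := fun c => by rw [← add_mul, hαβ, one_mul]
            constructor
            · rw [← key (((q j : ℕ) : ℝ) / M)]
              exact add_le_add (mul_le_mul_of_nonneg_left hu'.1 hα)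
                (mul_le_mul_of_nonneg_left hv'.1 hβ)
            · rw [← key ((((q j : ℕ) : ℝ) + 1) / M)]
              exact add_le_add (mul_le_mul_of_nonneg_left hu'.2 hα)
                (mul_le_mul_of_nonneg_left hv'.2 hβ)
          have := hpre.intermediate_value ha hb (continuous_eval (pderiv i f)).continuousOn
          obtain ⟨c, hc, hc'⟩ := this ⟨ha'.le, hb'.le⟩
          exact hno' i hi c hc hc'
      rw [bad, Finset.mem_filter] at hq
      obtain ⟨_, v, hv, hv'⟩ := hq
      obtain ⟨i, ε, s, h1, h2, h3⟩ := edge hM f q hmon v hv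
      rw [bade, Finset.mem_filter]
      exact ⟨Finset.mem_univ _, i, ε, s, h1, h2, by rw [h3]; exact hv'⟩
    have hder : ∀ i ∈ D, (bad M (pderiv i f) 0).card ≤ cst n K * M ^ n := by
      intro i hi
      rw [hD, Finset.mem_filter] at hi
      by_contra hcon
      push Not at hcon
      have h := ih (pderiv i f) (totalDegree_pderiv_le f i hf) 0 hcon
      apply hi.2
      refine MvPolynomial.funext_set (fun _ => Set.Icc (0 : ℝ) 1)
        (fun _ => Set.Icc_infinite one_pos) (fun x hx => ?_)
      rw [map_zero]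
      have h2 := h x (fun j => hx j (Set.mem_univ _))
      rw [mul_zero] at h2
      exact abs_nonpos_iff.mp h2
    have h1 : (bad M f t).card ≤ (n + 1) * (cst n K * M ^ n) + (n + 1) * 2 ^ (n + 1) *
        ((M + 1) ^ n * (2 * (K + 1)) + n * (K + 1) * (M + 1) ^ (n - 1) * M) := by
      refine (Finset.card_le_card hsub).trans ((Finset.card_union_le _ _).trans ?_)
      refine Nat.add_le_add ?_ (bade_card hM f hf x₀ hx₀ hbig)
      refine Finset.card_biUnion_le.trans ((Finset.sum_le_sum hder).trans ?_)
      rw [Finset.sum_const, smul_eq_mul]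
      refine Nat.mul_le_mul_right _ ((Finset.card_le_univ _).trans (le_of_eq ?_))
      simp
    have h2 : (M + 1) ^ n ≤ 2 ^ n * M ^ n := by
      rw [← mul_pow]
      exact Nat.pow_le_pow_left (by omega) n
    have h3 : n * (K + 1) * (M + 1) ^ (n - 1) * M ≤ n * (K + 1) * 2 ^ n * M ^ n := by
      rcases Nat.eq_zero_or_pos n with h0 | h0
      · subst h0; simp
      · obtain ⟨m, rfl⟩ := Nat.exists_eq_succ_of_ne_zero h0.ne'
        simp only [Nat.succ_eq_add_one, Nat.add_sub_cancel]
        have h4 : (M + 1) ^ m * M ≤ 2 ^ (m + 1) * M ^ (m + 1) := by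
          rw [← mul_pow, pow_succ]
          exact Nat.mul_le_mul (Nat.pow_le_pow_left (by omega) m) (by omega)
        calc (m + 1) * (K + 1) * (M + 1) ^ m * M = (m + 1) * (K + 1) * ((M + 1) ^ m * M) := by
              ring
          _ ≤ (m + 1) * (K + 1) * (2 ^ (m + 1) * M ^ (m + 1)) := Nat.mul_le_mul_left _ h4
          _ = _ := by ring
    have h5 : (M + 1) ^ n * (2 * (K + 1)) ≤ 2 ^ n * (2 * (K + 1)) * M ^ n := by
      calc (M + 1) ^ n * (2 * (K + 1)) ≤ 2 ^ n * M ^ n * (2 * (K + 1)) :=
            Nat.mul_le_mul_right _ h2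
        _ = _ := by ring
    have h6 : (bad M f t).card ≤ cst n (K + 1) * M ^ n := by
      refine h1.trans ?_
      simp only [cst]
      calc (n + 1) * (cst n K * M ^ n) + (n + 1) * 2 ^ (n + 1) *
            ((M + 1) ^ n * (2 * (K + 1)) + n * (K + 1) * (M + 1) ^ (n - 1) * M)
          ≤ (n + 1) * (cst n K * M ^ n) + (n + 1) * 2 ^ (n + 1) *
            (2 ^ n * (2 * (K + 1)) * M ^ n + n * (K + 1) * 2 ^ n * M ^ n) :=
            Nat.add_le_add_left (Nat.mul_le_mul_left _ (Nat.add_le_add h5 h3)) _
        _ = _ := by ring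
    omega

/-! ### Points -/

/-- The cell of a point. -/
noncomputable def cell {n : ℕ} (M : ℕ) (x : Fin n → ℝ) (j : Fin n) : ℤ := ⌊(M : ℝ) * x j⌋

/-- **Remez at one scale, for points**: if `|f| ≤ t` at points of `[0, 1) ^ (n + 1)` in more than
`cst n K * M ^ n` cells, then `f` is small on the unit cube. -/
theorem remez_cell (n : ℕ) {M : ℕ} (hM : 0 < M) (K : ℕ) (f : MvPolynomial (Fin (n + 1)) ℝ)
    (hf : f.totalDegree ≤ K) (t : ℝ) (S : Finset (Fin (n + 1) → ℤ))
    (hS : ∀ q ∈ S, ∃ x : Fin (n + 1) → ℝ, (∀ j, 0 ≤ x j ∧ x j < 1) ∧ cell M x = q ∧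
      |eval x f| ≤ t) (hc : cst n K * M ^ n < S.card) (x : Fin (n + 1) → ℝ)
    (hx : ∀ j, 0 ≤ x j ∧ x j ≤ 1) :
    |eval x f| ≤ (((K + 1 : ℕ) : ℝ) * (M : ℝ) ^ K) ^ (n + 1) * t := by
  classical
  have hMr : (0 : ℝ) < M := by exact_mod_cast hM
  refine remez n hM K f hf t (hc.trans_le ?_) x hx
  have hsub : S ⊆ (bad M f t).image (fun q j => ((q j : ℕ) : ℤ)) := by
    intro q hq
    obtain ⟨y, hy, hq', hy'⟩ := hS q hq
    rw [Finset.mem_image]
    have hlt : ∀ j, (q j).toNat < M := by
      intro j
      have h1 := hy j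
      rw [← hq']
      unfold cell
      have h2 : ⌊(M : ℝ) * y j⌋ < M := by
        rw [Int.floor_lt]
        push_cast
        nlinarith
      have h3 : 0 ≤ ⌊(M : ℝ) * y j⌋ := Int.floor_nonneg.mpr (mul_nonneg hMr.le h1.1)
      omega
    have hnn : ∀ j, 0 ≤ q j := by
      intro j
      rw [← hq']
      exact Int.floor_nonneg.mpr (mul_nonneg hMr.le (hy j).1)
    refine ⟨fun j => ⟨(q j).toNat, hlt j⟩, ?_, ?_⟩
    · rw [bad, Finset.mem_filter]
      refine ⟨Finset.mem_univ _, y, fun j => ?_, hy'⟩
      have e : (((q j).toNat : ℕ) : ℝ) = ((q j : ℤ) : ℝ) := by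
        have := Int.toNat_of_nonneg (hnn j)
        exact_mod_cast this
      simp only
      rw [e, ← hq']
      unfold cell
      constructor
      · rw [div_le_iff₀ hMr, mul_comm]
        exact Int.floor_le _
      · rw [le_div_iff₀ hMr, mul_comm]
        exact (Int.lt_floor_add_one _).le
    · ext j
      exact Int.toNat_of_nonneg (hnn j)
  exact (Finset.card_le_card hsub).trans Finset.card_image_le

end Pool.RM
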