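import Pool.Agent.H74.RM.Rm
import Pool.Agent.H10.KAL.RIM

/-!
# Remez at one scale, for random points

A random point `V` of the unit cube of dimension `n + 1`, and a random polynomial `f (c ω)` of
degree at most `K`. If the cells of side `1 / M` of `V` are full up to `D` given `c`, then

  `P (|f (V)| ≤ t, but f is not small on the cube) * log (M / (cst n K + 1)) ≤ D + log 2`.

So a deficit of `e₀ r log 2` for `M = 2 ^ r` costs a probability of about `e₀`, for every degree,
and the loss `C K r` of the conclusion is proportional to the length `r` of the block.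
-/

set_option autoImplicit false

namespace Pool.RM

open Finset
open Pool.Agent.H49.Ent Pool.Agent.H32.Dense Pool.STK
open MvPolynomial (pderiv totalDegree eval)

variable {Ω Γ : Type} [Fintype Ω] {p : Ω → ℝ}

/-- The cells of the unit cube. -/
noncomputable def cells (n M : ℕ) : Finset (Fin n → ℤ) :=
  Fintype.piFinset (fun _ => Finset.Ico (0 : ℤ) (M : ℤ))

theorem card_cells (n M : ℕ) : (cells n M).card = M ^ n := by
  unfold cells
  rw [Fintype.card_piFinset]
  simp

theorem cell_mem {n M : ℕ} (hM : 0 < M) {x : Fin n → ℝ} (hx : ∀ j, 0 ≤ x j ∧ x j < 1) :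
    cell M x ∈ cells n M := by
  have hMr : (0 : ℝ) < M := by exact_mod_cast hM
  unfold cells
  rw [Fintype.mem_piFinset]
  intro j
  rw [Finset.mem_Ico]
  unfold cell
  refine ⟨Int.floor_nonneg.mpr (mul_nonneg hMr.le (hx j).1), ?_⟩
  rw [Int.floor_lt]
  push_cast
  nlinarith [(hx j).2]

/-- `f` is not small on the unit cube. -/
def Big (n M K : ℕ) (f : MvPolynomial (Fin (n + 1)) ℝ) (t : ℝ) : Prop :=
  ∃ x : Fin (n + 1) → ℝ, (∀ j, 0 ≤ x j ∧ x j ≤ 1) ∧
    (((K + 1 : ℕ) : ℝ) * (M : ℝ) ^ K) ^ (n + 1) * t < |eval x f|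

open Classical in
/-- **Remez at one scale, for random points.** -/
theorem remez_cond (hp : IsLaw p) {n M K : ℕ} (hM : 0 < M) (V : Ω → Fin (n + 1) → ℝ)
    (hV : ∀ ω, 0 < p ω → ∀ j, 0 ≤ V ω j ∧ V ω j < 1) (c : Ω → Γ)
    (f : Γ → MvPolynomial (Fin (n + 1)) ℝ) (hf : ∀ v, (f v).totalDegree ≤ K) (t : Γ → ℝ) {D : ℝ}
    (hH : (n + 1 : ℕ) * Real.log M - D ≤ CH p (fun ω => cell M (V ω)) c) :
    (∑ ω, if |eval (V ω) (f (c ω))| ≤ t (c ω) ∧ Big n M K (f (c ω)) (t (c ω)) then p ω else 0) *
      Real.log ((M : ℝ) / (cst n K + 1)) ≤ D + Real.log 2 := by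
  have hMr : (0 : ℝ) < M := by exact_mod_cast hM
  have hp0 := hp.nonneg
  -- the points outside the support
  set V' : Ω → Fin (n + 1) → ℝ := fun ω => if 0 < p ω then V ω else 0 with hV'
  have hVV : ∀ ω, 0 < p ω → V' ω = V ω := fun ω h => if_pos h
  have hV'1 : ∀ ω, ∀ j, 0 ≤ V' ω j ∧ V' ω j < 1 := by
    intro ω j
    rw [hV']
    simp only
    split_ifs with h
    · exact hV ω h j
    · simp
  have hCH : CH p (fun ω => cell M (V ω)) c = CH p (fun ω => cell M (V' ω)) c := by
    unfold CH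
    congr 1
    refine H_congr hp0 ?_ ?_
    · intro a b ha hb hab
      simp only [Prod.mk.injEq] at hab ⊢
      rw [hVV a ha, hVV b hb] at hab
      exact hab
    · intro a b ha hb hab
      simp only [Prod.mk.injEq] at hab ⊢
      rw [hVV a ha, hVV b hb]
      exact hab
  -- the weights
  set lam : ℝ := (M : ℝ) / (cst n K + 1) with hlam
  have hcst : (0 : ℝ) < (cst n K : ℝ) + 1 := by positivity
  have hlam0 : 0 < lam := div_pos hMr hcst
  set S : Γ → Finset (Fin (n + 1) → ℤ) := fun v => (cells (n + 1) M).filter (fun q =>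
    Big n M K (f v) (t v) ∧ ∃ x : Fin (n + 1) → ℝ, (∀ j, 0 ≤ x j ∧ x j < 1) ∧ cell M x = q ∧
      |eval x (f v)| ≤ t v) with hS
  have hScard : ∀ v, (S v).card ≤ cst n K * M ^ n := by
    intro v
    by_contra hcon
    push Not at hcon
    have h1 : 0 < (S v).card := by omega
    obtain ⟨q, hq⟩ := Finset.card_pos.mp h1
    rw [hS, Finset.mem_filter] at hq
    obtain ⟨x, hx, hx'⟩ := hq.2.1
    have := remez_cell n hM K (f v) (hf v) (t v) (S v) (fun q hq => by
      rw [hS, Finset.mem_filter] at hq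
      exact hq.2.2) hcon x hx
    exact absurd hx' (not_lt.mpr this)
  have key := Pool.Agent.H10.KAL.gibbs_cond hp (fun ω => cell M (V' ω)) c (cells (n + 1) M)
    (fun ω => cell_mem hM (hV'1 ω)) (fun v q => 1 + if q ∈ S v then lam else 0)
    (fun v q _ => by split_ifs <;> linarith)
  -- the upper bound
  have hup : ∀ ω, Real.log (∑ q ∈ cells (n + 1) M, (1 + if q ∈ S (c ω) then lam else 0)) ≤
      Real.log 2 + (n + 1 : ℕ) * Real.log M := by
    intro ω
    have e1 : ∑ q ∈ cells (n + 1) M, (1 + if q ∈ S (c ω) then lam else 0) =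
        (M : ℝ) ^ (n + 1) + (S (c ω)).card * lam := by
      rw [Finset.sum_add_distrib, Finset.sum_const, card_cells, nsmul_eq_mul, mul_one,
        ← Finset.sum_filter]
      have e2 : (cells (n + 1) M).filter (fun q => q ∈ S (c ω)) = S (c ω) := by
        ext q
        rw [Finset.mem_filter]
        refine ⟨fun h => h.2, fun h => ⟨?_, h⟩⟩
        rw [hS, Finset.mem_filter] at h
        exact h.1
      rw [e2, Finset.sum_const, nsmul_eq_mul]
      push_cast
      rfl
    have e3 : ((S (c ω)).card : ℝ) * lam ≤ (M : ℝ) ^ (n + 1) := by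
      have h1 : ((S (c ω)).card : ℝ) ≤ (cst n K : ℝ) * (M : ℝ) ^ n := by
        exact_mod_cast hScard (c ω)
      have h2 : (cst n K : ℝ) * (M : ℝ) ^ n ≤ ((cst n K : ℝ) + 1) * (M : ℝ) ^ n := by
        have : (0 : ℝ) ≤ (M : ℝ) ^ n := by positivity
        nlinarith
      calc ((S (c ω)).card : ℝ) * lam ≤ (((cst n K : ℝ) + 1) * (M : ℝ) ^ n) * lam :=
            mul_le_mul_of_nonneg_right (h1.trans h2) hlam0.le
        _ = (M : ℝ) ^ (n + 1) := by
            rw [hlam, pow_succ]
            field_simp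
    have hpos : (0 : ℝ) < (M : ℝ) ^ (n + 1) := by positivity
    rw [e1]
    calc Real.log ((M : ℝ) ^ (n + 1) + (S (c ω)).card * lam)
        ≤ Real.log (2 * (M : ℝ) ^ (n + 1)) :=
          Real.log_le_log (by positivity) (by linarith)
      _ = _ := by rw [Real.log_mul (by norm_num) hpos.ne', Real.log_pow]
  have hup' : ∑ ω, p ω * Real.log (∑ q ∈ cells (n + 1) M,
      (1 + if q ∈ S (c ω) then lam else 0)) ≤ Real.log 2 + (n + 1 : ℕ) * Real.log M := by
    calc _ ≤ ∑ ω, p ω * (Real.log 2 + (n + 1 : ℕ) * Real.log M) :=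
          Finset.sum_le_sum (fun ω _ => mul_le_mul_of_nonneg_left (hup ω) (hp0 ω))
      _ = _ := by rw [← Finset.sum_mul, hp.sum_one, one_mul]
  -- the lower bound
  have hlow : (∑ ω, if |eval (V ω) (f (c ω))| ≤ t (c ω) ∧ Big n M K (f (c ω)) (t (c ω))
      then p ω else 0) * Real.log lam ≤
      ∑ ω, p ω * Real.log (1 + if cell M (V' ω) ∈ S (c ω) then lam else 0) := by
    rw [Finset.sum_mul]
    refine Finset.sum_le_sum (fun ω _ => ?_)
    have hnn : 0 ≤ p ω * Real.log (1 + if cell M (V' ω) ∈ S (c ω) then lam else 0) := by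
      refine mul_nonneg (hp0 ω) (Real.log_nonneg ?_)
      split_ifs <;> linarith
    split_ifs with h1 h2 h2
    · refine mul_le_mul_of_nonneg_left (Real.log_le_log hlam0 (by linarith)) (hp0 ω)
    · rcases (hp0 ω).eq_or_lt with h0 | h0
      · simp [← h0]
      · exfalso
        apply h2
        rw [hS, Finset.mem_filter]
        refine ⟨cell_mem hM (hV'1 ω), h1.2, V' ω, hV'1 ω, rfl, ?_⟩
        rw [hVV ω h0]
        exact h1.1
    · rw [zero_mul]
      rw [if_pos h2] at hnn
      exact hnn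
    · rw [zero_mul]
      rw [if_neg h2] at hnn
      exact hnn
  rw [hCH] at hH
  linarith [key, hup', hlow, hH]

end Pool.RM
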